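import Pool.Agent.Lib.MP_688fd0_co.SQ6.H79.Cell3

/-!
CELL.
-/

set_option autoImplicit false

namespace Pool.Agent.Lib.MP_688fd0_co.SQ6.H79

open Pool.Agent.Lib.MP_688fd0_co.OSF Pool.Agent.Lib.MP_688fd0_co.SQ6

section fin

variable {G : Type} [Group G] [Finite G] {A₀ A₁ : Set G}

lemma lv_even (H : Subgroup G) (z b₀ : G) (hn : ∀ n : ℤ, ∀ x ∈ H, z ^ n * x * (z ^ n)⁻¹ ∈ H)
    (hb : ∀ b ∈ A₁, b * b₀⁻¹ ∈ H) {x : G} {n : ℤ} (hx : x * (z ^ n)⁻¹ ∈ H) {b : G} (h : b ∈ A₁) :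
    LV H z b₀ (x * b) (2 * n + 1) := by
  refine ⟨n, Or.inr ⟨rfl, ?_⟩⟩
  have h1 := H.mul_mem hx (hn n _ (hb b h))
  have e : x * (z ^ n)⁻¹ * (z ^ n * (b * b₀⁻¹) * (z ^ n)⁻¹) = x * b * b₀⁻¹ * (z ^ n)⁻¹ := by group
  rwa [e] at h1

lemma lv_odd (H : Subgroup G) (z b₀ : G) (hn : ∀ n : ℤ, ∀ x ∈ H, z ^ n * x * (z ^ n)⁻¹ ∈ H)
    (ha : ∀ a ∈ A₀, b₀ * a * z⁻¹ ∈ H) {x : G} {n : ℤ} (hx : x * b₀⁻¹ * (z ^ n)⁻¹ ∈ H) {a : G} (h : a ∈ A₀) :
    LV H z b₀ (x * a) (2 * (n + 1)) := by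
  refine ⟨n + 1, Or.inl ⟨rfl, ?_⟩⟩
  have h1 := H.mul_mem hx (hn n _ (ha a h))
  have e : x * b₀⁻¹ * (z ^ n)⁻¹ * (z ^ n * (b₀ * a * z⁻¹) * (z ^ n)⁻¹) = x * a * (z ^ (n + 1))⁻¹ := by
    rw [zpow_add_one]; group
  rwa [e] at h1

lemma zpow_lift {K : Subgroup G} (φ : Equiv.Perm K) (Φ : Equiv.Perm G) (h : ∀ x : K, Φ x = (φ x : G)) (k : ℤ) (x : K) :
    (Φ ^ k) x = ((φ ^ k) x : K) := by
  have hinv : ∀ x : K, Φ⁻¹ x = ((φ⁻¹ x : K) : G) := by
    intro x
    rw [Equiv.Perm.inv_eq_iff_eq, h]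
    simp
  have hp : ∀ n : ℕ, ∀ x : K, (Φ ^ n) x = ((φ ^ n) x : K) := by
    intro n
    induction n with
    | zero => intro x; rfl
    | succ n ih =>
      intro x
      rw [pow_succ, pow_succ, Equiv.Perm.mul_apply, Equiv.Perm.mul_apply, h, ih]
  have hi : ∀ n : ℕ, ∀ x : K, (Φ⁻¹ ^ n) x = ((φ⁻¹ ^ n) x : K) := by
    intro n
    induction n with
    | zero => intro x; rfl
    | succ n ih =>
      intro x
      rw [pow_succ, pow_succ, Equiv.Perm.mul_apply, Equiv.Perm.mul_apply, hinv, ih]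
  obtain ⟨n, rfl | rfl⟩ := k.eq_nat_or_neg
  · rw [zpow_natCast, zpow_natCast, hp]
  · rw [zpow_neg, zpow_natCast, zpow_neg, zpow_natCast, ← inv_pow, ← inv_pow, hi]

/-- The end: a full turn. -/
lemma final (hLst : LstS) (hTow : TowerS) (eps : G →* ℤˣ) (n₀ : A₀.Nonempty) (n₁ : A₁.Nonempty)
    (h₀ : ∀ a ∈ A₀, a⁻¹ ∈ A₀) (h₁ : ∀ a ∈ A₁, a⁻¹ ∈ A₁) (e₀ : ∀ a ∈ A₀, eps a = -1) (e₁ : ∀ a ∈ A₁, eps a = -1)
    (hg : Subgroup.closure (A₀ ∪ A₁) = ⊤) (S : ℕ → A₁ × A₀) (L : ℕ) (q : A₁ × A₀ → G) (hq : q = ql)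
    (H : Subgroup G) (hH : H = Hw q)
    (hL : L = H.relIndex eps.ker) (hmem : gp q S L ∈ H)
    (f : Equiv.Perm H) (hf : Reach H S L f)
    (h2 : Two (Equiv.mulRight (⟨gp q S L, hmem⟩ : H) * f)) : Lst (A₀ ∪ A₁) := by
  have hker : Subgroup.closure (Set.range q) = eps.ker := by
    rw [hq]; exact ker_gen eps n₀ n₁ h₀ h₁ e₀ e₁ hg
  obtain ⟨b₀, hb₀⟩ := n₁
  obtain ⟨a₀, ha₀⟩ := n₀
  have hle : H ≤ eps.ker := by rw [← hker, hH]; exact Hw_le_closure q
  set z := q (S 0) with hz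
  have hzk : z ∈ eps.ker := by rw [← hker]; exact Subgroup.subset_closure ⟨S 0, rfl⟩
  have hconj : ∀ n : ℤ, ∀ x ∈ H, z ^ n * x * (z ^ n)⁻¹ ∈ H := by
    intro n x hx
    rw [hH] at hx ⊢
    refine Hw_conj q ?_ hx
    rw [hker]
    exact Subgroup.zpow_mem _ hzk n
  have hLpos : L ≠ 0 := by
    rw [hL]
    exact Subgroup.index_ne_zero_of_finite (H := H.subgroupOf eps.ker)
  obtain ⟨lev, hlev1, hlev2⟩ := ex_lev eps H hle z b₀ hzk (e₁ _ hb₀) L
    (fun x hx => by rw [hH]; exact ex_pow q (S 0) (by rw [hker]; exact hx))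
    (fun n => by rw [hL, ← hker, hH]; exact pow_mem_iff q (S 0) n)
  have hbq : ∀ b ∈ A₁, b * b₀⁻¹ ∈ H := by
    intro b hb
    have h3 := q_quot_mem q (⟨b, hb⟩, ⟨a₀, ha₀⟩) (⟨b₀, hb₀⟩, ⟨a₀, ha₀⟩)
    have e : q (⟨b, hb⟩, ⟨a₀, ha₀⟩) * (q (⟨b₀, hb₀⟩, ⟨a₀, ha₀⟩))⁻¹ = b * b₀⁻¹ := by
      simp only [hq, ql]; group
    rw [hH]
    rwa [e] at h3
  have haq : ∀ a ∈ A₀, b₀ * a * z⁻¹ ∈ H := by
    intro a ha
    have h3 := q_quot_mem q (⟨b₀, hb₀⟩, ⟨a⁻¹, h₀ a ha⟩) (S 0)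
    have e : q (⟨b₀, hb₀⟩, ⟨a⁻¹, h₀ a ha⟩) * (q (S 0))⁻¹ = b₀ * a * z⁻¹ := by
      simp only [hq, ql, hz, inv_inv]
    rw [hH]
    rwa [e] at h3
  obtain ⟨ψ, g1, g2, g3⟩ := hf
  have : NeZero (2 * L) := ⟨by omega⟩
  -- the steps go one level up
  have hup : ∀ i, i < 2 * L → ∀ x, lev x = (i : ZMod (2 * L)) → lev (ψ i x) = (i : ZMod (2 * L)) + 1 := by
    intro i hi x hx
    have hx' : LV H z b₀ x (i : ℤ) := hlev2 x i (by rw [hx]; push_cast; rfl)
    have hgoal : LV H z b₀ (ψ i x) ((i : ℤ) + 1) := by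
      obtain ⟨n, ⟨hn, h4⟩ | ⟨hn, h4⟩⟩ := hx'
      · obtain ⟨j, rfl⟩ : ∃ j : ℕ, i = 2 * j := ⟨i / 2, by omega⟩
        have h5 := lv_even H z b₀ hconj hbq h4 (g1 j x)
        rw [mul_inv_cancel_left] at h5
        rwa [hn]
      · obtain ⟨j, rfl⟩ : ∃ j : ℕ, i = 2 * j + 1 := ⟨i / 2, by omega⟩
        have h5 := lv_odd H z b₀ hconj haq h4 (g2 j x)
        rw [mul_inv_cancel_left] at h5
        rw [hn]
        have e : (2 : ℤ) * n + 1 + 1 = 2 * (n + 1) := by ring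
        rwa [e]
    have h6 := hlev1 _ _ hgoal
    rw [h6]; push_cast; rfl
  obtain ⟨Φ, p1, p2⟩ := hTow G (2 * L) inferInstance lev ψ hup
  have hP0 : ∀ x : G, lev x = 0 ↔ x ∈ H := by
    intro x
    constructor
    · intro hx
      obtain ⟨n, ⟨hn, h4⟩ | ⟨hn, h4⟩⟩ := hlev2 x 0 (by rw [hx]; simp)
      · have : n = 0 := by omega
        subst this
        simpa using h4
      · omega
    · intro hx
      have h4 := hlev1 x 0 ⟨0, Or.inl ⟨by ring, by simpa using hx⟩⟩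
      simpa using h4
  refine hLst G (A₀ ∪ A₁) Φ ?_ hg ?_ ?_
  · rintro x (hx | hx)
    · exact Or.inl (h₀ x hx)
    · exact Or.inr (h₁ x hx)
  · intro x
    have hi : lev x = ((lev x).val : ZMod (2 * L)) := (ZMod.natCast_zmod_val _).symm
    rw [p1 (lev x).val (ZMod.val_lt _) x hi]
    rcases Nat.even_or_odd' (lev x).val with ⟨j, hj | hj⟩
    · rw [hj]; exact Or.inr (g1 j x)
    · rw [hj]; exact Or.inl (g2 j x)
  · obtain ⟨x, y, hxy⟩ := h2
    have hlift : ∀ h : H, comp ψ (2 * L) h = ((Equiv.mulRight (⟨gp q S L, hmem⟩ : H) * f) h : G) := by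
      intro h
      rw [g3, ← hq]
      rfl
    have hz' : ∀ (x : H) (z : G) (hz : z ∈ H), (Equiv.mulRight (⟨gp q S L, hmem⟩ : H) * f).SameCycle x ⟨z, hz⟩ →
        (comp ψ (2 * L)).SameCycle x z := by
      rintro x z hz ⟨k, hk⟩
      refine ⟨k, ?_⟩
      rw [zpow_lift _ _ hlift, hk]
    refine p2 x y ((hP0 _).2 x.2) ((hP0 _).2 y.2) (fun z hz => ?_)
    rcases hxy ⟨z, (hP0 _).1 hz⟩ with h | h
    · exact Or.inl (hz' _ _ _ h)
    · exact Or.inr (hz' _ _ _ h)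

end fin

/-- CELL -/
theorem cell_proof (hLst : LstS) (hEul : EulS) (hCen : CenS) (hTow : TowerS) : CellS := by
  intro G _ _ A₀ A₁ eps N n₀ n₁ h₀ h₁ e₀ e₁ hg hN hNle hNab
  have hker := ker_gen eps n₀ n₁ h₀ h₁ e₀ e₁ hg
  set q : A₁ × A₀ → G := ql with hq
  set Γ := eps.ker with hΓ
  have hqm : ∀ s, q s ∈ Γ := by
    intro s
    rw [← hker]
    exact Subgroup.subset_closure ⟨s, rfl⟩
  set q' : A₁ × A₀ → Γ := fun s => ⟨q s, hqm s⟩ with hq'
  set N' := N.subgroupOf Γ with hN'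
  have hN'n : N'.Normal := by
    constructor
    intro x hx g
    rw [Subgroup.mem_subgroupOf] at hx ⊢
    exact hN.conj_mem _ hx _
  have : Nonempty (A₁ × A₀) := by
    obtain ⟨a, ha⟩ := n₀
    obtain ⟨b, hb⟩ := n₁
    exact ⟨(⟨b, hb⟩, ⟨a, ha⟩)⟩
  -- the circuit
  have hcl : Subgroup.closure (Set.range q') = ⊤ := by
    rw [eq_top_iff]
    rintro ⟨x, hx⟩ -
    rw [← hker] at hx
    have hmap : (Subgroup.closure (Set.range q')).map Γ.subtype = Subgroup.closure (Set.range q) := by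
      rw [MonoidHom.map_closure]
      congr 1
      rw [← Set.range_comp]
      rfl
    rw [← hmap] at hx
    obtain ⟨y, hy, hyx⟩ := hx
    have : y = ⟨x, by rw [← hker, ← hmap]; exact ⟨y, hy, hyx⟩⟩ := Subtype.ext hyx
    rwa [this] at hy
  obtain ⟨l, hl1, hl2, hl3⟩ := hEul (Γ ⧸ N') (A₁ × A₀) (fun s => QuotientGroup.mk' N' (q' s)) inferInstance (by
    have h1 : Subgroup.closure (Set.range (fun s => QuotientGroup.mk' N' (q' s))) =
        (Subgroup.closure (Set.range q')).map (QuotientGroup.mk' N') := by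
      rw [MonoidHom.map_closure, ← Set.range_comp]
      rfl
    rw [h1, hcl, ← MonoidHom.range_eq_map, QuotientGroup.range_mk'])
  have hcen := hCen Γ N' hN'n (A₁ × A₀) q' l (by
    intro x hx y hy
    exact Subtype.ext (hNab x hx y hy)) hl1 hl2 hl3
  have hlpos : 0 < l.length := by
    rw [hl1]
    exact Nat.mul_pos Nat.card_pos Nat.card_pos
  set S : ℕ → A₁ × A₀ := fun n => l[n % l.length]'(Nat.mod_lt _ hlpos) with hS
  set lam : G := wv q l with hlam
  have hlamc : ∀ x ∈ Γ, x * lam = lam * x := by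
    intro x hx
    have h := hcen.2 ⟨x, hx⟩
    have h3 := congrArg (fun y : Γ => (y : G)) h
    have e : (((l.map q').prod : Γ) : G) = lam := by
      rw [hlam, wv, Subgroup.val_list_prod, List.map_map]
      rfl
    simp only [Subgroup.coe_mul, e] at h3
    exact h3
  -- periodicity
  have hper : ∀ n, gp q S (l.length + n) = lam * gp q S n := by
    intro n
    induction n with
    | zero =>
      rw [add_zero, gp_eq]
      show _ = lam * 1
      rw [mul_one, hlam]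
      congr 1
      apply List.ext_getElem
      · simp
      · intro i hi1 hi2
        simp only [List.getElem_map, List.getElem_range, hS]
        congr 1
        exact Nat.mod_eq_of_lt hi2
    | succ n ih =>
      rw [← add_assoc, gp_succ, ih, gp_succ]
      have : S (l.length + n) = S n := by
        simp only [hS, Nat.add_mod_left]
      rw [this, mul_assoc]
  have hper2 : ∀ j c, gp q S (l.length * j + c) = lam ^ j * gp q S c := by
    intro j
    induction j with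
    | zero => intro c; simp
    | succ j ih =>
      intro c
      rw [show l.length * (j + 1) + c = l.length + (l.length * j + c) by ring, hper, ih, pow_succ']
      rw [mul_assoc]
  have hSper : ∀ j c, S (l.length * j + c) = S c := by
    intro j c
    simp only [hS, Nat.mul_add_mod]
  have hgpm : ∀ n, gp q S n ∈ Γ := fun n => by rw [← hker]; exact gp_mem q S n
  have hconjl : ∀ (j c : ℕ) (x : G), x ∈ Γ → gp q S (l.length * j + c) * x * (gp q S (l.length * j + c))⁻¹ =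
      gp q S c * x * (gp q S c)⁻¹ := by
    intro j c x hx
    rw [hper2]
    have h1 : gp q S c * x * (gp q S c)⁻¹ ∈ Γ := Γ.mul_mem (Γ.mul_mem (hgpm c) hx) (Γ.inv_mem (hgpm c))
    have h2 : ∀ j : ℕ, lam ^ j * (gp q S c * x * (gp q S c)⁻¹) = gp q S c * x * (gp q S c)⁻¹ * lam ^ j := by
      intro j
      exact (Commute.pow_right (show Commute _ lam from hlamc _ h1) j).symm
    have e : lam ^ j * gp q S c * x * (lam ^ j * gp q S c)⁻¹ = lam ^ j * (gp q S c * x * (gp q S c)⁻¹) * (lam ^ j)⁻¹ := by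
      group
    rw [e, h2, mul_inv_cancel_right]
  -- the data
  have hVmem : ∀ c s', gp q S c * q s' * (q (S c))⁻¹ * (gp q S c)⁻¹ ∈ Hw q := by
    intro c s'
    have h := gp_quot q S c s'
    rw [gp_succ, mul_inv_rev, ← mul_assoc] at h
    exact h
  set V : Set (Hw q) := {v | ∃ c < l.length, ∃ s' : A₁ × A₀, (s'.1 = (S c).1 ∨ s'.2 = (S c).2) ∧
    (v : G) = gp q S c * q s' * (q (S c))⁻¹ * (gp q S c)⁻¹} with hV
  set L := (Hw q).relIndex Γ with hL
  have hindex : L * 2 = (Hw q).index := by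
    rw [hL, ← Subgroup.relIndex_mul_index (show Hw q ≤ Γ by rw [← hker]; exact Hw_le_closure q)]
    congr 1
    obtain ⟨a, ha⟩ := n₀
    have hsurj : Function.Surjective eps := by
      intro u
      rcases Int.units_eq_one_or u with h | h
      · exact ⟨1, by rw [map_one, h]⟩
      · exact ⟨a, by rw [e₀ a ha, h]⟩
    rw [hΓ, Subgroup.index_ker, MonoidHom.range_eq_top.2 hsurj, Subgroup.card_top]
    rw [Nat.card_eq_fintype_card]
    rfl
  have hNindex : N.index = Nat.card (Γ ⧸ N') * 2 := by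
    rw [← Subgroup.relIndex_mul_index hNle]
    congr 1
    obtain ⟨a, ha⟩ := n₀
    have hsurj : Function.Surjective eps := by
      intro u
      rcases Int.units_eq_one_or u with h | h
      · exact ⟨1, by rw [map_one, h]⟩
      · exact ⟨a, by rw [e₀ a ha, h]⟩
    rw [hΓ, Subgroup.index_ker, MonoidHom.range_eq_top.2 hsurj, Subgroup.card_top]
    rw [Nat.card_eq_fintype_card]
    rfl
  have hLmem : gp q S L ∈ Hw q := by
    have h1 := gp_pow q S (S 0) L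
    have h2 : q (S 0) ^ (L : ℤ) ∈ Hw q := by
      rw [pow_mem_iff, hker]
    rw [zpow_natCast] at h2
    have h3 := (Hw q).mul_mem h1 h2
    rwa [inv_mul_cancel_right] at h3
  refine ⟨Hw q, V, ⟨gp q S L, hLmem⟩, ?_, ?_, ?_, ?_⟩
  · -- generation
    set U : Subgroup G := (Subgroup.closure V).map (Hw q).subtype with hU
    have hVU : ∀ v ∈ V, (v : G) ∈ U := fun v hv => ⟨v, Subgroup.subset_closure hv, rfl⟩
    have hU1 : ∀ c < l.length, ∀ s' : A₁ × A₀, gp q S c * q s' * (q (S c))⁻¹ * (gp q S c)⁻¹ ∈ U := by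
      intro c hc s'
      have h1 := hVU ⟨_, hVmem c (s'.1, (S c).2)⟩ ⟨c, hc, (s'.1, (S c).2), Or.inr rfl, rfl⟩
      have h2 := hVU ⟨_, hVmem c ((S c).1, s'.2)⟩ ⟨c, hc, ((S c).1, s'.2), Or.inl rfl, rfl⟩
      have h3 := U.mul_mem h1 h2
      have e : gp q S c * q (s'.1, (S c).2) * (q (S c))⁻¹ * (gp q S c)⁻¹ *
          (gp q S c * q ((S c).1, s'.2) * (q (S c))⁻¹ * (gp q S c)⁻¹) =
          gp q S c * q s' * (q (S c))⁻¹ * (gp q S c)⁻¹ := by
        simp only [hq, ql]; group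
      rw [← e]
      exact h3
    have hU2 : Hw q ≤ U := by
      apply Hw_le_of q S U
      intro n s
      have e0 : n = l.length * (n / l.length) + n % l.length := (Nat.div_add_mod n l.length).symm
      have h1 := hU1 (n % l.length) (Nat.mod_lt _ hlpos) s
      have h2 := hconjl (n / l.length) (n % l.length) (q s * (q (S n))⁻¹) (Γ.mul_mem (hqm s) (Γ.inv_mem (hqm _)))
      rw [← e0] at h2
      have e1 : S n = S (n % l.length) := by
        conv_lhs => rw [e0]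
        rw [hSper]
      have e2 : gp q S n * q s * (gp q S (n + 1))⁻¹ = gp q S n * (q s * (q (S n))⁻¹) * (gp q S n)⁻¹ := by
        rw [gp_succ]; group
      rw [e2, h2, e1]
      have e3 : gp q S (n % l.length) * (q s * (q (S (n % l.length)))⁻¹) * (gp q S (n % l.length))⁻¹ =
          gp q S (n % l.length) * q s * (q (S (n % l.length)))⁻¹ * (gp q S (n % l.length))⁻¹ := by group
      rw [e3]
      exact h1
    rw [eq_top_iff]
    rintro ⟨x, hx⟩ -
    obtain ⟨y, hy, hyx⟩ := hU2 hx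
    have : y = ⟨x, hx⟩ := Subtype.ext hyx
    rwa [this] at hy
  · rw [← hker]; exact Hw_le_closure q
  · intro M hM hM0 hM1
    apply Hw_le
    · intro s x hx
      exact hM.conj_mem x hx _
    · rintro ⟨b, a⟩ ⟨b', a'⟩
      have h1 := hM.conj_mem _ (hM0 _ (h₀ _ a.2) _ (h₀ _ a'.2)) (b : G)
      have h2 := M.mul_mem h1 (hM1 _ b.2 _ b'.2)
      have e : (b : G) * ((a : G)⁻¹ * ((a' : G)⁻¹)⁻¹) * (b : G)⁻¹ * ((b : G) * (b' : G)⁻¹) = q (b, a) * (q (b', a'))⁻¹ := by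
        simp only [hq, ql]; group
      rwa [e] at h2
  · intro n f hn hMv hTwo
    obtain ⟨ml, hm1, hm2, rfl⟩ := hMv
    have hlen : l.length * ml.length ≤ L := by
      have h1 : ml.length * (N.index * (Nat.card A₀ * Nat.card A₁)) ≤ (Hw q).index :=
        le_trans (Nat.mul_le_mul_right _ hm1) hn
      rw [hNindex, ← hindex] at h1
      have h2 : l.length = Nat.card (Γ ⧸ N') * (Nat.card A₁ * Nat.card A₀) := by
        rw [hl1, Nat.card_prod]
      have h3 : ml.length * (Nat.card (Γ ⧸ N') * 2 * (Nat.card A₀ * Nat.card A₁)) = (l.length * ml.length) * 2 := by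
        rw [h2]; ring
      rw [h3] at h1
      omega
    have hR := reach_list h₀ S l.length V (by
      intro v hv j
      obtain ⟨c, hc, s', hs, hv'⟩ := hv
      refine ⟨c, hc, s', ?_, ?_⟩
      · rw [hSper]; exact hs
      · rw [hv', hSper]
        have h1 := hconjl j c (q s' * (q (S c))⁻¹) (Γ.mul_mem (hqm s') (Γ.inv_mem (hqm _)))
        have e : ∀ g : G, g * q s' * (q (S c))⁻¹ * g⁻¹ = g * (q s' * (q (S c))⁻¹) * g⁻¹ := by intro g; group
        show gp q S c * q s' * (q (S c))⁻¹ * (gp q S c)⁻¹ = gp q S (l.length * j + c) * q s' * (q (S c))⁻¹ *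
          (gp q S (l.length * j + c))⁻¹
        rw [e, e, h1]) ml hm2
    have hR2 := reach_mono h₀ S hR (L - l.length * ml.length)
    rw [Nat.add_sub_cancel' hlen] at hR2
    exact final hLst hTow eps n₀ n₁ h₀ h₁ e₀ e₁ hg S L q rfl (Hw q) rfl hL hLmem _ hR2 hTwo

end Pool.Agent.Lib.MP_688fd0_co.SQ6.H79
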