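import Pool.Agent.Lib.MP_688fd0_co.SQ6.Iface

/-!
CELL, part 1: the words, the subgroup `H`, the set `V` and its generation property.
-/

set_option autoImplicit false

namespace Pool.Agent.Lib.MP_688fd0_co.SQ6.H79

open Pool.Agent.Lib.MP_688fd0_co.OSF Pool.Agent.Lib.MP_688fd0_co.SQ6

section words

variable {G : Type} [Group G] {Λ : Type} (q : Λ → G)

/-- value of a word -/
def wv (l : List Λ) : G := (l.map q).prod

@[simp] lemma wv_nil : wv q [] = 1 := rfl

@[simp] lemma wv_cons (s : Λ) (l : List Λ) : wv q (s :: l) = q s * wv q l := by simp [wv]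

@[simp] lemma wv_append (l l' : List Λ) : wv q (l ++ l') = wv q l * wv q l' := by simp [wv]

/-- quotients of words of equal length -/
def Hw : Subgroup G := Subgroup.closure {x | ∃ w w' : List Λ, w.length = w'.length ∧ x = wv q w * (wv q w')⁻¹}

lemma quot_mem {w w' : List Λ} (h : w.length = w'.length) : wv q w * (wv q w')⁻¹ ∈ Hw q :=
  Subgroup.subset_closure ⟨w, w', h, rfl⟩

lemma q_quot_mem (s s' : Λ) : q s * (q s')⁻¹ ∈ Hw q := by
  have h := quot_mem q (w := [s]) (w' := [s']) rfl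
  simpa using h

lemma conj_mem (s : Λ) {x : G} (hx : x ∈ Hw q) : q s * x * (q s)⁻¹ ∈ Hw q := by
  induction hx using Subgroup.closure_induction with
  | mem x hx =>
    obtain ⟨w, w', hl, rfl⟩ := hx
    have h := quot_mem q (w := s :: w) (w' := s :: w') (by simp [hl])
    simpa [mul_assoc] using h
  | one => simp
  | mul x y _ _ hx hy =>
    have h := (Hw q).mul_mem hx hy
    have e : q s * x * (q s)⁻¹ * (q s * y * (q s)⁻¹) = q s * (x * y) * (q s)⁻¹ := by group
    rwa [e] at h
  | inv x _ hx =>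
    have h := (Hw q).inv_mem hx
    have e : (q s * x * (q s)⁻¹)⁻¹ = q s * x⁻¹ * (q s)⁻¹ := by group
    rwa [e] at h

/-- elements `x` with `x U x⁻¹ ≤ U` form a subgroup if the group is finite -/
lemma conj_of_closure [Finite G] (U : Subgroup G) (S : Set G) (hS : ∀ s ∈ S, ∀ x ∈ U, s * x * s⁻¹ ∈ U) {g : G}
    (hg : g ∈ Subgroup.closure S) {x : G} (hx : x ∈ U) : g * x * g⁻¹ ∈ U := by
  have hinv : ∀ s ∈ S, ∀ x ∈ U, s⁻¹ * x * s ∈ U := by
    intro s hs x hx
    have h1 : ∀ n : ℕ, s ^ n * x * (s ^ n)⁻¹ ∈ U := by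
      intro n
      induction n with
      | zero => simpa using hx
      | succ n ih =>
        have h := hS s hs _ ih
        have e : s * (s ^ n * x * (s ^ n)⁻¹) * s⁻¹ = s ^ (n + 1) * x * (s ^ (n + 1))⁻¹ := by
          rw [pow_succ' s n, mul_inv_rev]
          group
        rwa [e] at h
    have h2 := h1 (orderOf s - 1)
    have h3 : s ^ (orderOf s - 1) = s⁻¹ := by
      apply eq_inv_of_mul_eq_one_left
      rw [← pow_succ, Nat.sub_add_cancel (orderOf_pos s), pow_orderOf_eq_one]
    rwa [h3, inv_inv] at h2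
  have key : ∀ g ∈ Subgroup.closure S, (∀ x ∈ U, g * x * g⁻¹ ∈ U) ∧ (∀ x ∈ U, g⁻¹ * x * g ∈ U) := by
    intro g hg
    induction hg using Subgroup.closure_induction with
    | mem s hs => exact ⟨hS s hs, hinv s hs⟩
    | one => exact ⟨fun x hx => by simpa using hx, fun x hx => by simpa using hx⟩
    | mul a b _ _ ha hb =>
      refine ⟨fun x hx => ?_, fun x hx => ?_⟩
      · have h := ha.1 _ (hb.1 _ hx)
        have e : a * (b * x * b⁻¹) * a⁻¹ = a * b * x * (a * b)⁻¹ := by group
        rwa [e] at h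
      · have h := hb.2 _ (ha.2 _ hx)
        have e : b⁻¹ * (a⁻¹ * x * a) * b = (a * b)⁻¹ * x * (a * b) := by group
        rwa [e] at h
    | inv a _ ha =>
      exact ⟨fun x hx => by simpa using ha.2 x hx, fun x hx => by simpa using ha.1 x hx⟩
  exact (key g hg).1 x hx

lemma Hw_conj [Finite G] {g : G} (hg : g ∈ Subgroup.closure (Set.range q)) {x : G} (hx : x ∈ Hw q) :
    g * x * g⁻¹ ∈ Hw q :=
  conj_of_closure (Hw q) (Set.range q) (by rintro _ ⟨s, rfl⟩ x hx; exact conj_mem q s hx) hg hx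

lemma Hw_le {M : Subgroup G} (hM : ∀ s, ∀ x ∈ M, q s * x * (q s)⁻¹ ∈ M) (h : ∀ s s', q s * (q s')⁻¹ ∈ M) : Hw q ≤ M := by
  rw [Hw, Subgroup.closure_le]
  rintro x ⟨w, w', hl, rfl⟩
  induction w generalizing w' with
  | nil =>
    have : w' = [] := by
      rw [← List.length_eq_zero_iff, ← hl]; rfl
    subst this
    simp
  | cons s w ih =>
    cases w' with
    | nil => simp at hl
    | cons s' w' =>
      have h1 := ih w' (by simpa using hl)
      have h2 : wv q w * (wv q w')⁻¹ ∈ M := h1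
      have h3 := hM s _ h2
      have h4 := M.mul_mem h3 (h s s')
      show wv q (s :: w) * (wv q (s' :: w'))⁻¹ ∈ M
      have e : wv q (s :: w) * (wv q (s' :: w'))⁻¹ = q s * (wv q w * (wv q w')⁻¹) * (q s)⁻¹ * (q s * (q s')⁻¹) := by
        rw [wv_cons, wv_cons]; group
      rwa [e]

lemma wv_mem (w : List Λ) : wv q w ∈ Subgroup.closure (Set.range q) := by
  induction w with
  | nil => simp
  | cons s w ih =>
    rw [wv_cons]
    exact Subgroup.mul_mem _ (Subgroup.subset_closure ⟨s, rfl⟩) ih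

lemma Hw_le_closure : Hw q ≤ Subgroup.closure (Set.range q) := by
  apply Hw_le
  · intro s x hx
    have hs : q s ∈ Subgroup.closure (Set.range q) := Subgroup.subset_closure ⟨s, rfl⟩
    exact Subgroup.mul_mem _ (Subgroup.mul_mem _ hs hx) (Subgroup.inv_mem _ hs)
  · intro s s'
    exact Subgroup.mul_mem _ (Subgroup.subset_closure ⟨s, rfl⟩) (Subgroup.inv_mem _ (Subgroup.subset_closure ⟨s', rfl⟩))

/-! ### the periodic word -/

/-- The partial products of the periodic word. -/
def gp (S : ℕ → Λ) : ℕ → G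
  | 0 => 1
  | n + 1 => gp S n * q (S n)

lemma gp_succ (S : ℕ → Λ) (n : ℕ) : gp q S (n + 1) = gp q S n * q (S n) := rfl

lemma gp_eq (S : ℕ → Λ) (n : ℕ) : gp q S n = wv q ((List.range n).map S) := by
  induction n with
  | zero => rfl
  | succ n ih => rw [gp_succ, ih, List.range_succ, List.map_append, wv_append]; simp

lemma gp_mem (S : ℕ → Λ) (n : ℕ) : gp q S n ∈ Subgroup.closure (Set.range q) := by
  rw [gp_eq]; exact wv_mem q _

lemma gp_quot (S : ℕ → Λ) (n : ℕ) (s : Λ) : gp q S n * q s * (gp q S (n + 1))⁻¹ ∈ Hw q := by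
  have h := quot_mem q (w := (List.range n).map S ++ [s]) (w' := (List.range (n + 1)).map S) (by simp)
  rwa [wv_append, ← gp_eq, ← gp_eq, wv_cons, wv_nil, mul_one] at h

/-- If the elements `g_n q(s) g_(n+1)⁻¹` are in `U` then `H ≤ U`. -/
lemma Hw_le_of (S : ℕ → Λ) (U : Subgroup G) (hU : ∀ n s, gp q S n * q s * (gp q S (n + 1))⁻¹ ∈ U) : Hw q ≤ U := by
  have key : ∀ w : List Λ, ∀ n, wv q w = wv q w → gp q S n * wv q w * (gp q S (n + w.length))⁻¹ ∈ U := by
    intro w
    induction w with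
    | nil => intro n _; simp
    | cons s w ih =>
      intro n _
      have h1 := U.mul_mem (hU n s) (ih (n + 1) rfl)
      have e : gp q S n * q s * (gp q S (n + 1))⁻¹ * (gp q S (n + 1) * wv q w * (gp q S (n + 1 + w.length))⁻¹)
          = gp q S n * wv q (s :: w) * (gp q S (n + (s :: w).length))⁻¹ := by
        rw [wv_cons, List.length_cons, show n + (w.length + 1) = n + 1 + w.length by ring]
        group
      rwa [e] at h1
  rw [Hw, Subgroup.closure_le]
  rintro x ⟨w, w', hl, rfl⟩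
  have h1 := key w 0 rfl
  have h2 := key w' 0 rfl
  have h3 := U.mul_mem h1 (U.inv_mem h2)
  rw [← hl] at h3
  have e : gp q S 0 * wv q w * (gp q S (0 + w.length))⁻¹ * (gp q S 0 * wv q w' * (gp q S (0 + w.length))⁻¹)⁻¹
      = wv q w * (wv q w')⁻¹ := by
    show 1 * wv q w * (gp q S (0 + w.length))⁻¹ * (1 * wv q w' * (gp q S (0 + w.length))⁻¹)⁻¹ = _
    group
  rw [e] at h3
  exact h3

end words

end Pool.Agent.Lib.MP_688fd0_co.SQ6.H79
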