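import Pool.Agent.Lib.MP_688fd0_co.SQ6.H79.Cell1

/-!
CELL, part 2: one step, and the words of moves which can be realized in `n` steps.
-/

set_option autoImplicit false

namespace Pool.Agent.Lib.MP_688fd0_co.SQ6.H79

open Pool.Agent.Lib.MP_688fd0_co.OSF Pool.Agent.Lib.MP_688fd0_co.SQ6

section step

variable {G : Type} [Group G] {H : Subgroup G}

open Classical in
lemma rot_apply {K : Type} [Group K] (v : K) (X : Set K) (h : Cl v X) (x : K) :
    rot v X h x = if x ∈ X then x * v else x := rfl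

/-- A rotation of the cell `H k`. -/
lemma step_aux (k u : G) (v : H) (hv : (v : G) = k * u * k⁻¹) (X : Set H) (hX : Cl v X) :
    ∃ ρ : Equiv.Perm G, (∀ x, ρ x = x ∨ ρ x = x * u) ∧ ∀ h : H, ρ (h * k) = (rot v X hX h : H) * k := by
  classical
  set Y : Set G := {x | ∃ h : H, h ∈ X ∧ x = h * k} with hY
  have hu : ∀ h : H, (h : G) * k * u = ((h * v : H) : G) * k := by
    intro h
    rw [Subgroup.coe_mul, hv]
    group
  have hmem : ∀ h : H, (h : G) * k ∈ Y ↔ h ∈ X := by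
    intro h
    constructor
    · rintro ⟨h', h1, h2⟩
      have : h = h' := Subtype.ext (mul_right_cancel h2)
      rwa [this]
    · intro h1
      exact ⟨h, h1, rfl⟩
  have hcl : Cl u Y := by
    intro x
    constructor
    · rintro ⟨h, h1, h2⟩
      have h3 : h * v⁻¹ ∈ X := by
        rw [← hX]
        simpa using h1
      refine ⟨h * v⁻¹, h3, ?_⟩
      have h4 := hu (h * v⁻¹)
      rw [inv_mul_cancel_right, ← h2] at h4
      exact (mul_right_cancel h4).symm
    · rintro ⟨h, h1, h2⟩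
      exact ⟨h * v, (hX h).2 h1, by rw [h2, hu]⟩
  refine ⟨rot u Y hcl, fun x => ?_, fun h => ?_⟩
  · rw [rot_apply]
    by_cases h : x ∈ Y
    · right; rw [if_pos h]
    · left; rw [if_neg h]
  · rw [rot_apply, rot_apply]
    by_cases h1 : h ∈ X
    · rw [if_pos ((hmem h).2 h1), if_pos h1, hu]
    · rw [if_neg (fun h2 => h1 ((hmem h).1 h2)), if_neg h1]

variable {A₀ A₁ : Set G}

/-- The labels. -/
def ql (s : A₁ × A₀) : G := (s.1 : G) * (s.2 : G)⁻¹

/-- One step. -/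
lemma step (h₀ : ∀ a ∈ A₀, a⁻¹ ∈ A₀) (g : G) (s s' : A₁ × A₀) (hs : s'.1 = s.1 ∨ s'.2 = s.2) (v : H)
    (hv : (v : G) = g * ql s' * (ql s)⁻¹ * g⁻¹) (X : Set H) (hX : Cl v X) :
    ∃ ψ ψ' : Equiv.Perm G, (∀ x, x⁻¹ * ψ x ∈ A₁) ∧ (∀ x, x⁻¹ * ψ' x ∈ A₀) ∧
      ∀ h : H, ψ' (ψ (h * g)) = (rot v X hX h : H) * (g * ql s) := by
  obtain ⟨b, a⟩ := s
  obtain ⟨b', a'⟩ := s'
  rcases hs with hs | hs
  · have hb : b' = b := hs
    subst hb
    obtain ⟨ρ, h1, h2⟩ := step_aux (g * b') ((a' : G)⁻¹ * a) v (by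
      rw [hv]; simp only [ql]; group) X hX
    refine ⟨Equiv.mulRight (b' : G), Equiv.mulRight (a : G)⁻¹ * ρ, fun x => ?_, fun x => ?_, fun h => ?_⟩
    · simp
    · rw [Equiv.Perm.mul_apply, Equiv.coe_mulRight]
      rcases h1 x with h | h
      · rw [h]; simpa using h₀ _ a.2
      · rw [h]
        have e : x⁻¹ * (x * ((a' : G)⁻¹ * a) * (a : G)⁻¹) = (a' : G)⁻¹ := by group
        rw [e]; exact h₀ _ a'.2
    · have e : (h : G) * g * b' = h * (g * b') := by group
      show ρ ((h : G) * g * b') * (a : G)⁻¹ = _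
      rw [e, h2]
      simp only [ql]; group
  · have ha : a' = a := hs
    subst ha
    obtain ⟨ρ, h1, h2⟩ := step_aux g ((b' : G) * (b : G)⁻¹) v (by
      rw [hv]; simp only [ql]; group) X hX
    refine ⟨Equiv.mulRight (b : G) * ρ, Equiv.mulRight (a' : G)⁻¹, fun x => ?_, fun x => ?_, fun h => ?_⟩
    · rw [Equiv.Perm.mul_apply, Equiv.coe_mulRight]
      rcases h1 x with h | h
      · rw [h]; simp
      · rw [h]
        have e : x⁻¹ * (x * ((b' : G) * (b : G)⁻¹) * (b : G)) = (b' : G) := by group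
        rw [e]; exact b'.2
    · rw [Equiv.coe_mulRight]
      simpa using h₀ _ a'.2
    · show ρ ((h : G) * g) * (b : G) * (a' : G)⁻¹ = _
      rw [h2]
      simp only [ql]; group

lemma comp_congr {X : Type} (ψ ψ' : ℕ → Equiv.Perm X) (n : ℕ) (h : ∀ i < n, ψ i = ψ' i) : comp ψ n = comp ψ' n := by
  induction n with
  | zero => rfl
  | succ n ih =>
    show ψ n * comp ψ n = ψ' n * comp ψ' n
    rw [ih (fun i hi => h i (by omega)), h n (by omega)]

/-- `f` can be realized in `n` steps. -/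
def Reach (H : Subgroup G) (S : ℕ → A₁ × A₀) (n : ℕ) (f : Equiv.Perm H) : Prop :=
  ∃ ψ : ℕ → Equiv.Perm G, (∀ i x, x⁻¹ * ψ (2 * i) x ∈ A₁) ∧ (∀ i x, x⁻¹ * ψ (2 * i + 1) x ∈ A₀) ∧
    ∀ h : H, comp ψ (2 * n) h = (f h : G) * gp ql S n

lemma reach_zero (S : ℕ → A₁ × A₀) : Reach H S 0 1 := by
  refine ⟨fun i => if i % 2 = 0 then Equiv.mulRight ((S 0).1 : G) else Equiv.mulRight ((S 0).2 : G), fun i x => ?_,
    fun i x => ?_, fun h => ?_⟩
  · have : (2 * i) % 2 = 0 := by omega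
    simp [this]
  · have : (2 * i + 1) % 2 = 1 := by omega
    simp [this]
  · show (h : G) = (h : G) * 1
    rw [mul_one]

lemma reach_step (h₀ : ∀ a ∈ A₀, a⁻¹ ∈ A₀) (S : ℕ → A₁ × A₀) {n : ℕ} {f : Equiv.Perm H} (hf : Reach H S n f)
    (s' : A₁ × A₀) (hs : s'.1 = (S n).1 ∨ s'.2 = (S n).2) (v : H)
    (hv : (v : G) = gp ql S n * ql s' * (ql (S n))⁻¹ * (gp ql S n)⁻¹) (X : Set H) (hX : Cl v X) :
    Reach H S (n + 1) (rot v X hX * f) := by
  obtain ⟨ψ, h1, h2, h3⟩ := hf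
  obtain ⟨φ, φ', g1, g2, g3⟩ := step h₀ (gp ql S n) (S n) s' hs v hv X hX
  refine ⟨fun i => if i = 2 * n then φ else if i = 2 * n + 1 then φ' else ψ i, fun i x => ?_, fun i x => ?_,
    fun h => ?_⟩
  · by_cases hi : i = n
    · subst hi; simp only [if_true]; exact g1 x
    · have e1 : ¬ (2 * i = 2 * n) := by omega
      have e2 : ¬ (2 * i = 2 * n + 1) := by omega
      simp only [e1, e2, if_false]; exact h1 i x
  · by_cases hi : i = n
    · subst hi
      have e1 : ¬ (2 * i + 1 = 2 * i) := by omega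
      simp only [e1, if_false, if_true]; exact g2 x
    · have e1 : ¬ (2 * i + 1 = 2 * n) := by omega
      have e2 : ¬ (2 * i + 1 = 2 * n + 1) := by omega
      simp only [e1, e2, if_false]; exact h2 i x
  · set ψ' : ℕ → Equiv.Perm G := fun i => if i = 2 * n then φ else if i = 2 * n + 1 then φ' else ψ i with hψ'
    have e0 : comp ψ' (2 * n) = comp ψ (2 * n) := by
      apply comp_congr
      intro i hi
      have e1 : ¬ (i = 2 * n) := by omega
      have e2 : ¬ (i = 2 * n + 1) := by omega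
      simp only [hψ', e1, e2, if_false]
    have e1 : ψ' (2 * n) = φ := by simp [hψ']
    have e2 : ψ' (2 * n + 1) = φ' := by simp [hψ']
    show (ψ' (2 * n + 1) * (ψ' (2 * n) * comp ψ' (2 * n))) h = _
    rw [e0, e1, e2, Equiv.Perm.mul_apply, Equiv.Perm.mul_apply, h3, g3]
    rfl

lemma rot_empty {K : Type} [Group K] (v : K) (h : Cl v (∅ : Set K)) : rot v ∅ h = 1 := by
  ext x
  simp [rot_apply]

lemma reach_mono (h₀ : ∀ a ∈ A₀, a⁻¹ ∈ A₀) (S : ℕ → A₁ × A₀) {n : ℕ} {f : Equiv.Perm H} (hf : Reach H S n f)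
    (m : ℕ) : Reach H S (n + m) f := by
  induction m with
  | zero => exact hf
  | succ m ih =>
    have h := reach_step h₀ S ih (S (n + m)) (Or.inl rfl) 1 (by simp) ∅ (fun x => by simp)
    rw [rot_empty, one_mul] at h
    exact h

/-- A list of moves. -/
lemma reach_list (h₀ : ∀ a ∈ A₀, a⁻¹ ∈ A₀) (S : ℕ → A₁ × A₀) (l : ℕ) (V : Set H)
    (hV : ∀ v ∈ V, ∀ j : ℕ, ∃ c < l, ∃ s' : A₁ × A₀, (s'.1 = (S (l * j + c)).1 ∨ s'.2 = (S (l * j + c)).2) ∧
      (v : G) = gp ql S (l * j + c) * ql s' * (ql (S (l * j + c)))⁻¹ * (gp ql S (l * j + c))⁻¹)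
    (L : List (Equiv.Perm H)) (hL : ∀ g ∈ L, ∃ v ∈ V, ∃ (X : Set H) (h : Cl v X), g = rot v X h) :
    Reach H S (l * L.length) L.prod := by
  induction L with
  | nil => simpa using reach_zero S
  | cons g L ih =>
    have h1 := ih (fun g hg => hL g (List.mem_cons_of_mem _ hg))
    obtain ⟨v, hv, X, hX, rfl⟩ := hL g (List.mem_cons_self ..)
    obtain ⟨c, hc, s', hs, hv'⟩ := hV v hv L.length
    have h2 := reach_step h₀ S (reach_mono h₀ S h1 c) s' hs v hv' X hX
    have h3 := reach_mono h₀ S h2 (l - (c + 1))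
    have e : l * L.length + c + 1 + (l - (c + 1)) = l * (L.length + 1) := by
      rw [mul_add, mul_one]; omega
    rw [e] at h3
    simpa using h3

end step

end Pool.Agent.Lib.MP_688fd0_co.SQ6.H79
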