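import Pool.Agent.Lib.MP_688fd0_co.SQ6.H79.Cell2

/-!
CELL, part 3: the levels.
-/

set_option autoImplicit false

namespace Pool.Agent.Lib.MP_688fd0_co.SQ6.H79

open Pool.Agent.Lib.MP_688fd0_co.OSF Pool.Agent.Lib.MP_688fd0_co.SQ6

section gen

variable {G : Type} [Group G] {A₀ A₁ : Set G}

/-- `b a⁻¹` generate the kernel. -/
lemma ker_gen (eps : G →* ℤˣ) (n₀ : A₀.Nonempty) (n₁ : A₁.Nonempty) (h₀ : ∀ a ∈ A₀, a⁻¹ ∈ A₀)
    (h₁ : ∀ a ∈ A₁, a⁻¹ ∈ A₁) (e₀ : ∀ a ∈ A₀, eps a = -1) (e₁ : ∀ a ∈ A₁, eps a = -1)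
    (hg : Subgroup.closure (A₀ ∪ A₁) = ⊤) : Subgroup.closure (Set.range (ql (A₀ := A₀) (A₁ := A₁))) = eps.ker := by
  obtain ⟨a₀, ha₀⟩ := n₀
  obtain ⟨b₀, hb₀⟩ := n₁
  set K := Subgroup.closure (Set.range (ql (A₀ := A₀) (A₁ := A₁))) with hK
  have hq : ∀ b ∈ A₁, ∀ a ∈ A₀, b * a⁻¹ ∈ K := by
    intro b hb a ha
    exact Subgroup.subset_closure ⟨(⟨b, hb⟩, ⟨a, ha⟩), rfl⟩
  apply le_antisymm
  · rw [hK, Subgroup.closure_le]
    rintro _ ⟨⟨b, a⟩, rfl⟩
    show eps (b * (a : G)⁻¹) = 1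
    rw [map_mul, map_inv, e₀ _ a.2, e₁ _ b.2]
    simp
  · -- the claim
    have key : ∀ g : G, (eps g = 1 → g ∈ K) ∧ (eps g = -1 → g * b₀ ∈ K) := by
      intro g
      have hgm : g ∈ Subgroup.closure (A₀ ∪ A₁) := by rw [hg]; trivial
      have hstep : ∀ g x : G, x ∈ A₀ ∪ A₁ → ((eps g = 1 → g ∈ K) ∧ (eps g = -1 → g * b₀ ∈ K)) →
          ((eps (g * x) = 1 → g * x ∈ K) ∧ (eps (g * x) = -1 → g * x * b₀ ∈ K)) := by
        intro g x hx hP
        have hex : eps x = -1 := by rcases hx with hx | hx; exacts [e₀ _ hx, e₁ _ hx]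
        refine ⟨fun h => ?_, fun h => ?_⟩
        · have h1 : eps g = -1 := by
            rw [map_mul, hex] at h
            have := congrArg (fun u => u * (-1 : ℤˣ)) h
            simpa using this
          have h2 := hP.2 h1
          have h3 : b₀⁻¹ * x ∈ K := by
            rcases hx with hx | hx
            · simpa using hq _ (h₁ _ hb₀) _ (h₀ _ hx)
            · have h4 := K.mul_mem (hq _ (h₁ _ hb₀) _ ha₀) (K.inv_mem (hq _ (h₁ _ hx) _ ha₀))
              have e : b₀⁻¹ * a₀⁻¹ * (x⁻¹ * a₀⁻¹)⁻¹ = b₀⁻¹ * x := by group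
              rwa [e] at h4
          have h4 := K.mul_mem h2 h3
          have e : g * b₀ * (b₀⁻¹ * x) = g * x := by group
          rwa [e] at h4
        · have h1 : eps g = 1 := by
            rw [map_mul, hex] at h
            have := congrArg (fun u => u * (-1 : ℤˣ)) h
            simpa using this
          have h2 := hP.1 h1
          have h3 : x * b₀ ∈ K := by
            rcases hx with hx | hx
            · have h4 := K.inv_mem (hq _ (h₁ _ hb₀) _ hx)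
              have e : (b₀⁻¹ * x⁻¹)⁻¹ = x * b₀ := by group
              rwa [e] at h4
            · have h4 := K.mul_mem (hq _ hx _ ha₀) (K.inv_mem (hq _ (h₁ _ hb₀) _ ha₀))
              have e : x * a₀⁻¹ * (b₀⁻¹ * a₀⁻¹)⁻¹ = x * b₀ := by group
              rwa [e] at h4
          have h4 := K.mul_mem h2 h3
          rwa [← mul_assoc] at h4
      induction hgm using Subgroup.closure_induction_right with
      | one => exact ⟨fun _ => K.one_mem, fun h => absurd h (by rw [map_one]; decide)⟩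
      | mul_right x hx y hy ih => exact hstep x y hy ih
      | mul_inv_cancel x hx y hy ih =>
        refine hstep x y⁻¹ ?_ ih
        rcases hy with hy | hy
        · exact Or.inl (h₀ _ hy)
        · exact Or.inr (h₁ _ hy)
    intro g hgk
    exact (key g).1 hgk

end gen

section levels

variable {G : Type} [Group G] [Finite G] {Λ : Type} (q : Λ → G)

/-- Every element of the group is congruent to a power of `z`. -/
lemma ex_pow (s₀ : Λ) {x : G} (hx : x ∈ Subgroup.closure (Set.range q)) :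
    ∃ n : ℤ, x * (q s₀ ^ n)⁻¹ ∈ Hw q := by
  induction hx using Subgroup.closure_induction_right with
  | one => exact ⟨0, by simp⟩
  | mul_right x hx y hy ih =>
    obtain ⟨s, rfl⟩ := hy
    obtain ⟨n, hn⟩ := ih
    refine ⟨n + 1, ?_⟩
    have h1 := Hw_conj q hx (q_quot_mem q s s₀)
    have h2 := (Hw q).mul_mem h1 hn
    have e : x * (q s * (q s₀)⁻¹) * x⁻¹ * (x * (q s₀ ^ n)⁻¹) = x * q s * (q s₀ ^ (n + 1))⁻¹ := by
      rw [show n + 1 = 1 + n by ring, zpow_one_add]; group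
    rwa [e] at h2
  | mul_inv_cancel x hx y hy ih =>
    obtain ⟨s, rfl⟩ := hy
    obtain ⟨n, hn⟩ := ih
    refine ⟨n - 1, ?_⟩
    have hs : (q s)⁻¹ ∈ Subgroup.closure (Set.range q) := Subgroup.inv_mem _ (Subgroup.subset_closure ⟨s, rfl⟩)
    have h0 := Hw_conj q hs (q_quot_mem q s₀ s)
    have h1 := Hw_conj q hx h0
    have h2 := (Hw q).mul_mem h1 hn
    have e : x * ((q s)⁻¹ * (q s₀ * (q s)⁻¹) * (q s)⁻¹⁻¹) * x⁻¹ * (x * (q s₀ ^ n)⁻¹)
        = x * (q s)⁻¹ * (q s₀ ^ (n - 1))⁻¹ := by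
      rw [show n - 1 = -1 + n by ring, zpow_add, zpow_neg_one]; group
    rwa [e] at h2

lemma gp_pow (S : ℕ → Λ) (s₀ : Λ) (n : ℕ) : gp q S n * (q s₀ ^ n)⁻¹ ∈ Hw q := by
  induction n with
  | zero => simp [gp]
  | succ n ih =>
    have h1 := Hw_conj q (gp_mem q S n) (q_quot_mem q (S n) s₀)
    have h2 := (Hw q).mul_mem h1 ih
    have e : gp q S n * (q (S n) * (q s₀)⁻¹) * (gp q S n)⁻¹ * (gp q S n * (q s₀ ^ n)⁻¹)
        = gp q S (n + 1) * (q s₀ ^ (n + 1))⁻¹ := by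
      rw [gp_succ, pow_succ' (q s₀) n]; group
    rwa [e] at h2

/-- `z ^ n ∈ H` iff `L ∣ n`. -/
lemma pow_mem_iff (s₀ : Λ) (n : ℤ) :
    q s₀ ^ n ∈ Hw q ↔ (((Hw q).relIndex (Subgroup.closure (Set.range q)) : ℕ) : ℤ) ∣ n := by
  set Γ := Subgroup.closure (Set.range q) with hΓ
  set z : Γ := ⟨q s₀, Subgroup.subset_closure ⟨s₀, rfl⟩⟩ with hz
  have hN : ((Hw q).subgroupOf Γ).Normal := by
    constructor
    intro x hx g
    rw [Subgroup.mem_subgroupOf] at hx ⊢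
    simpa using Hw_conj q g.2 hx
  have hmk : ∀ m : ℤ, (QuotientGroup.mk' ((Hw q).subgroupOf Γ) z) ^ m = 1 ↔ q s₀ ^ m ∈ Hw q := by
    intro m
    rw [← map_zpow, QuotientGroup.mk'_apply, QuotientGroup.eq_one_iff, Subgroup.mem_subgroupOf]
    simp [hz]
  have hall : ∀ x : Γ ⧸ ((Hw q).subgroupOf Γ), x ∈ Subgroup.zpowers (QuotientGroup.mk' ((Hw q).subgroupOf Γ) z) := by
    intro x
    obtain ⟨x, rfl⟩ := QuotientGroup.mk'_surjective _ x
    obtain ⟨m, hm⟩ := ex_pow q s₀ x.2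
    refine ⟨m, ?_⟩
    show (QuotientGroup.mk' ((Hw q).subgroupOf Γ) z) ^ m = _
    rw [← map_zpow, eq_comm, ← mul_inv_eq_one, ← map_inv, ← map_mul, QuotientGroup.mk'_apply,
      QuotientGroup.eq_one_iff, Subgroup.mem_subgroupOf]
    simpa [hz] using hm
  have hord : orderOf (QuotientGroup.mk' ((Hw q).subgroupOf Γ) z) = (Hw q).relIndex Γ := by
    rw [← Nat.card_zpowers, (Subgroup.eq_top_iff' _).2 hall, Subgroup.card_top]
    rfl
  rw [← hmk, ← hord, orderOf_dvd_iff_zpow_eq_one]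

end levels

section lev

variable {G : Type} [Group G] [Finite G] {A₀ A₁ : Set G}

/-- `x` is in the level `i`. -/
def LV (H : Subgroup G) (z b₀ : G) (x : G) (i : ℤ) : Prop :=
  ∃ n : ℤ, (i = 2 * n ∧ x * (z ^ n)⁻¹ ∈ H) ∨ (i = 2 * n + 1 ∧ x * b₀⁻¹ * (z ^ n)⁻¹ ∈ H)

/-- The level function. -/
lemma ex_lev (eps : G →* ℤˣ) (H : Subgroup G) (hH : H ≤ eps.ker) (z b₀ : G) (hz : eps z = 1) (hb : eps b₀ = -1)
    (L : ℕ) (hex : ∀ x, eps x = 1 → ∃ n : ℤ, x * (z ^ n)⁻¹ ∈ H) (hL : ∀ n : ℤ, z ^ n ∈ H ↔ (L : ℤ) ∣ n) :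
    ∃ lev : G → ZMod (2 * L), (∀ x i, LV H z b₀ x i → lev x = (i : ZMod (2 * L))) ∧
      ∀ x (i : ℤ), lev x = (i : ZMod (2 * L)) → LV H z b₀ x i := by
  have h1 : ∀ x, ∃ i, LV H z b₀ x i := by
    intro x
    rcases Int.units_eq_one_or (eps x) with h | h
    · obtain ⟨n, hn⟩ := hex x h
      exact ⟨2 * n, n, Or.inl ⟨rfl, hn⟩⟩
    · obtain ⟨n, hn⟩ := hex (x * b₀⁻¹) (by rw [map_mul, map_inv, h, hb]; simp)
      exact ⟨2 * n + 1, n, Or.inr ⟨rfl, hn⟩⟩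
  choose F hF using h1
  have heven : ∀ (x : G) (n : ℤ), x * (z ^ n)⁻¹ ∈ H → eps x = 1 := by
    intro x n h
    have h2 : eps (x * (z ^ n)⁻¹) = 1 := hH h
    rwa [map_mul, map_inv, map_zpow, hz, one_zpow, inv_one, mul_one] at h2
  have hodd : ∀ (x : G) (n : ℤ), x * b₀⁻¹ * (z ^ n)⁻¹ ∈ H → eps x = -1 := by
    intro x n h
    have h2 := heven _ n h
    rw [map_mul, map_inv, hb] at h2
    have := congrArg (fun u => u * (-1 : ℤˣ)) h2
    simpa using this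
  have hdiff : ∀ (x : G) (n m : ℤ), x * (z ^ n)⁻¹ ∈ H → x * (z ^ m)⁻¹ ∈ H → (L : ℤ) ∣ n - m := by
    intro x n m h h'
    rw [← hL]
    have h2 := H.mul_mem (H.inv_mem h) h'
    have e : (x * (z ^ n)⁻¹)⁻¹ * (x * (z ^ m)⁻¹) = z ^ (n - m) := by
      rw [zpow_sub]; group
    rwa [e] at h2
  have huniq : ∀ x i j, LV H z b₀ x i → LV H z b₀ x j → ((2 * L : ℕ) : ℤ) ∣ i - j := by
    rintro x i j ⟨n, hn⟩ ⟨m, hm⟩
    rcases hn with ⟨rfl, hn⟩ | ⟨rfl, hn⟩ <;> rcases hm with ⟨rfl, hm⟩ | ⟨rfl, hm⟩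
    · obtain ⟨t, ht⟩ := hdiff x n m hn hm
      exact ⟨t, by push_cast; linear_combination 2 * ht⟩
    · exfalso
      have h2 := heven x n hn
      rw [hodd x m hm] at h2
      exact absurd h2 (by decide)
    · exfalso
      have h2 := heven x m hm
      rw [hodd x n hn] at h2
      exact absurd h2 (by decide)
    · obtain ⟨t, ht⟩ := hdiff _ n m hn hm
      exact ⟨t, by push_cast; linear_combination 2 * ht⟩
  have hshift : ∀ x i (t : ℤ), LV H z b₀ x i → LV H z b₀ x (i + 2 * L * t) := by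
    have h3 : ∀ (x : G) (n t : ℤ), x * (z ^ n)⁻¹ ∈ H → x * (z ^ (n + L * t))⁻¹ ∈ H := by
      intro x n t h
      have h4 : z ^ (L * t : ℤ) ∈ H := (hL _).2 ⟨t, rfl⟩
      have h5 := H.mul_mem h (H.inv_mem h4)
      have e : x * (z ^ n)⁻¹ * (z ^ (L * t : ℤ))⁻¹ = x * (z ^ (n + L * t))⁻¹ := by
        rw [add_comm n, zpow_add, mul_inv_rev, mul_assoc]
      rwa [e] at h5
    rintro x i t ⟨n, hn⟩
    rcases hn with ⟨rfl, hn⟩ | ⟨rfl, hn⟩
    · exact ⟨n + L * t, Or.inl ⟨by ring, h3 _ _ _ hn⟩⟩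
    · exact ⟨n + L * t, Or.inr ⟨by ring, h3 _ _ _ hn⟩⟩
  refine ⟨fun x => (F x : ZMod (2 * L)), fun x i hi => ?_, fun x i hi => ?_⟩
  · show ((F x : ℤ) : ZMod (2 * L)) = (i : ZMod (2 * L))
    rw [ZMod.intCast_eq_intCast_iff_dvd_sub]
    exact huniq x i (F x) hi (hF x)
  · have hi' : ((F x : ℤ) : ZMod (2 * L)) = (i : ZMod (2 * L)) := hi
    rw [ZMod.intCast_eq_intCast_iff_dvd_sub] at hi'
    obtain ⟨t, ht⟩ := hi'
    have h4 := hshift x (F x) t (hF x)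
    have e : F x + 2 * L * t = i := by
      push_cast at ht
      linarith
    rwa [e] at h4

end lev

end Pool.Agent.Lib.MP_688fd0_co.SQ6.H79
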